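import Mathlib
import Pool.Agent.Work.MP_97603a_co.Defs

-- merged part: Pool.Agent.Work.MP_97603a_co.Q2.Red
section
/-! Reductions for out-degree 3.  A digraph is given by its out-neighbourhoods `N`.  Vertices with
empty out-neighbourhood are sinks (they need no out-neighbour).  Each sink `z` has an owner `o z`,
which is allowed to have out-degree 2 if it sends an arc to `z`. -/

namespace Pool.Agent.Work.MP_97603a_co.Q2

open Finset

variable {V : Type} [Fintype V] [DecidableEq V]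

structure OK (N : V → Finset V) (o : V → V) : Prop where
  irr : ∀ x, x ∉ N x
  deg : ∀ x, (N x).card = 3 ∨ N x = ∅ ∨ ((N x).card = 2 ∧ ∃ z ∈ N x, N z = ∅ ∧ o z = x)

def Fr (N : V → Finset V) (U : Set V) : Prop := ∀ x ∈ U, N x = ∅ ∨ ∃ y ∈ N x, y ∈ U

def Sp (N : V → Finset V) (u v : V) : Prop :=
  ∃ U W : Set V, Disjoint U W ∧ Fr N U ∧ Fr N W ∧ u ∈ U ∧ v ∈ W

def mu (N : V → Finset V) : ℕ := (univ.filter (fun x => N x ≠ ∅)).card

def IH (N : V → Finset V) : Prop :=
  ∀ (N' : V → Finset V) (o' : V → V), OK N' o' → mu N' < mu N → ∀ a b, a ≠ b → Sp N' a b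

variable {N : V → Finset V} {o : V → V} {u v : V}

omit [Fintype V] [DecidableEq V] in
lemma Sp.symm (h : Sp N u v) : Sp N v u := by
  obtain ⟨U, W, h1, h2, h3, h4, h5⟩ := h
  exact ⟨W, U, h1.symm, h3, h2, h5, h4⟩

lemma mu_lt {N' : V → Finset V} (h : ∀ a, N a = ∅ → N' a = ∅) {x : V} (hx : N x ≠ ∅)
    (hx' : N' x = ∅) : mu N' < mu N := by
  apply card_lt_card
  constructor
  · intro a ha
    simp only [mem_filter, mem_univ, true_and] at ha ⊢
    exact fun h1 => ha (h a h1)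
  · intro h1
    have := h1 (mem_filter.2 ⟨mem_univ x, hx⟩)
    simp [hx'] at this

omit [Fintype V] in
lemma ex_out (s : Finset V) (a b : V) (h : 3 ≤ s.card) : ∃ y ∈ s, y ≠ a ∧ y ≠ b := by
  by_contra hc
  push Not at hc
  have h1 : s ⊆ {a, b} := by
    intro y hy
    by_cases h2 : y = a
    · simp [h2]
    · simp [hc y hy h2]
  have h2 := card_le_card h1
  have h3 : ({a, b} : Finset V).card ≤ 2 := card_le_two
  omega

omit [Fintype V] in
lemma ex_out1 (s : Finset V) (a : V) (h : 2 ≤ s.card) : ∃ y ∈ s, y ≠ a := by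
  by_contra hc
  push Not at hc
  have h1 : s ⊆ {a} := fun y hy => by simp [hc y hy]
  have h2 := card_le_card h1
  simp at h2
  omega

omit [Fintype V] in
/-- a root that is a sink -/
lemma sp_sink (h : OK N o) (huv : u ≠ v) (hu : N u = ∅) : Sp N u v := by
  refine ⟨{u}, {u}ᶜ, disjoint_compl_right, ?_, ?_, rfl, fun h1 => huv h1.symm⟩
  · rintro x rfl
    exact Or.inl hu
  · intro x _
    rcases h.deg x with h1 | h1 | ⟨h1, -⟩
    · obtain ⟨y, h2, h3⟩ := ex_out1 (N x) u (by omega)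
      exact Or.inr ⟨y, h2, h3⟩
    · exact Or.inl h1
    · obtain ⟨y, h2, h3⟩ := ex_out1 (N x) u (by omega)
      exact Or.inr ⟨y, h2, h3⟩

omit [Fintype V] in
/-- a root on a digon, or a root pointing to a sink it owns -/
lemma sp_pair (h : OK N o) (huv : u ≠ v) {x : V} (hx : x ∈ N u) (hxv : x ≠ v)
    (hc : u ∈ N x ∨ (N x = ∅ ∧ o x = u)) : Sp N u v := by
  refine ⟨{u, x}, {u, x}ᶜ, disjoint_compl_right, ?_, ?_, Or.inl rfl, ?_⟩
  · rintro a (rfl | rfl)
    · exact Or.inr ⟨x, hx, Or.inr rfl⟩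
    · rcases hc with hc | hc
      · exact Or.inr ⟨u, hc, Or.inl rfl⟩
      · exact Or.inl hc.1
  · intro a ha
    rcases h.deg a with h1 | h1 | ⟨-, z, h1, h2, h3⟩
    · obtain ⟨y, h2, h3, h4⟩ := ex_out (N a) u x (by omega)
      exact Or.inr ⟨y, h2, by rintro (h5 | h5); exacts [h3 h5, h4 h5]⟩
    · exact Or.inl h1
    · refine Or.inr ⟨z, h1, ?_⟩
      rintro (h5 | h5)
      · rw [h5] at h2
        simp [h2] at hx
      · have h5 : z = x := h5
        rw [h5] at h2 h3
        rcases hc with hc | hc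
        · simp [h2] at hc
        · exact ha (Or.inl (h3.symm.trans hc.2))
  · rintro (h1 | h1)
    · exact huv h1.symm
    · exact hxv h1.symm

/-! ### contraction of an arc `x → y` -/

def ph (x y a : V) : V := if a = x then y else a

def lf (x y : V) (U : Set V) : Set V := {a | ph x y a ∈ U}

/-- contraction; the vertices of `K` (which contains `x`) become sinks -/
def ct (N : V → Finset V) (x y : V) (K : Finset V) (a : V) : Finset V :=
  if a ∈ K then ∅ else (N a).image (ph x y)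

omit [Fintype V] in
lemma ph_of_ne {x y a : V} (h : a ≠ x) : ph x y a = a := by simp [ph, h]

omit [Fintype V] in
lemma ph_self {x y : V} : ph x y x = y := by simp [ph]

omit [Fintype V] in
lemma card_img {x y : V} {s : Finset V} (h : ¬ (x ∈ s ∧ y ∈ s)) :
    (s.image (ph x y)).card = s.card := by
  apply card_image_of_injOn
  intro a ha b hb hab
  by_cases h1 : a = x <;> by_cases h2 : b = x
  · exact h1.trans h2.symm
  · rw [h1, ph_self, ph_of_ne h2] at hab
    exact absurd ⟨h1 ▸ ha, hab ▸ hb⟩ h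
  · rw [h2, ph_self, ph_of_ne h1] at hab
    exact absurd ⟨h2 ▸ hb, hab ▸ ha⟩ h
  · rwa [ph_of_ne h1, ph_of_ne h2] at hab

omit [Fintype V] in
lemma img_erase {x y : V} {s : Finset V} (hxy : x ≠ y) (hy : y ∈ s) :
    s.image (ph x y) = s.erase x := by
  ext b
  simp only [mem_image, mem_erase]
  constructor
  · rintro ⟨a, ha, rfl⟩
    by_cases h1 : a = x
    · rw [h1, ph_self]
      exact ⟨hxy.symm, hy⟩
    · rw [ph_of_ne h1]
      exact ⟨h1, ha⟩
  · rintro ⟨h1, h2⟩
    exact ⟨b, h2, ph_of_ne h1⟩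

omit [Fintype V] in
lemma sp_lift {x y : V} {K : Finset V} (hxy : y ∈ N x) (hne : x ≠ y)
    (hK : ∀ a ∈ K, a = x ∨ (a = y ∧ (N y = ∅ ∨ x ∈ N y)))
    (h : Sp (ct N x y K) (ph x y u) (ph x y v)) : Sp N u v := by
  have key : ∀ U : Set V, Fr (ct N x y K) U → Fr N (lf x y U) := by
    intro U hU a ha
    have ha' : ph x y a ∈ U := ha
    by_cases h1 : a = x
    · subst h1
      rw [ph_self] at ha'
      exact Or.inr ⟨y, hxy, by show ph a y y ∈ U; rwa [ph_of_ne hne.symm]⟩
    · rw [ph_of_ne h1] at ha'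
      by_cases h2 : a ∈ K
      · rcases hK a h2 with h3 | ⟨h3, h4 | h4⟩
        · exact absurd h3 h1
        · exact Or.inl (h3 ▸ h4)
        · exact Or.inr ⟨x, h3 ▸ h4, by show ph x y x ∈ U; rw [ph_self]; exact h3 ▸ ha'⟩
      · rcases hU a ha' with h3 | ⟨b, h3, h4⟩
        · left
          simpa [ct, h2] using h3
        · simp only [ct, h2, if_false, mem_image] at h3
          obtain ⟨c, h5, rfl⟩ := h3
          exact Or.inr ⟨c, h5, h4⟩
  obtain ⟨U, W, h1, h2, h3, h4, h5⟩ := h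
  refine ⟨lf x y U, lf x y W, ?_, key U h2, key W h3, h4, h5⟩
  rw [Set.disjoint_left] at h1 ⊢
  exact fun a ha hb => h1 ha hb

omit [Fintype V] in
lemma ph_ne {x y : V} (huv : u ≠ v) (h1 : ¬ (x = u ∧ y = v)) (h2 : ¬ (x = v ∧ y = u)) :
    ph x y u ≠ ph x y v := by
  by_cases h3 : u = x <;> by_cases h4 : v = x
  · exact absurd (h3.trans h4.symm) huv
  · rw [h3, ph_self, ph_of_ne h4]
    exact fun h => h1 ⟨h3.symm, h⟩
  · rw [h4, ph_self, ph_of_ne h3]
    exact fun h => h2 ⟨h4.symm, h.symm⟩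
  · rwa [ph_of_ne h3, ph_of_ne h4]

/-- contraction with at most one dominating vertex `w`; `y` is or becomes a sink if there is one -/
lemma sp_ct (h : OK N o) (ih : IH N) (huv : u ≠ v) {x y w : V} (hxy : y ∈ N x)
    (h1 : ¬ (x = u ∧ y = v)) (h2 : ¬ (x = v ∧ y = u)) {K : Finset V} (hxK : x ∈ K)
    (hK : ∀ a ∈ K, a = x ∨ (a = y ∧ (N y = ∅ ∨ x ∈ N y)))
    (hyK : x ∈ N y → y ∈ K)
    (hdom : ∀ a, x ∈ N a → y ∈ N a → a = w ∧ y ∈ K)
    (hown : y ∈ K → N y = ∅ → o y = x) : Sp N u v := by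
  have hne : x ≠ y := fun h3 => h.irr x (h3 ▸ hxy)
  have hx0 : N x ≠ ∅ := ne_empty_of_mem hxy
  have hemp : ∀ a, N a = ∅ → ct N x y K a = ∅ := by
    intro a ha
    simp [ct, ha]
  refine sp_lift hxy hne hK (ih _ (if y ∈ K then Function.update o y w else o) ⟨?_, ?_⟩
    (mu_lt hemp hx0 (by simp [ct, hxK])) _ _ (ph_ne huv h1 h2))
  · intro a ha
    by_cases h3 : a ∈ K
    · simp [ct, h3] at ha
    · simp only [ct, h3, if_false, mem_image] at ha
      obtain ⟨c, h4, h5⟩ := ha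
      by_cases h6 : c = x
      · rw [h6, ph_self] at h5
        exact h3 (h5 ▸ hyK (h5 ▸ h6 ▸ h4))
      · rw [ph_of_ne h6] at h5
        exact h.irr a (h5 ▸ h4)
  · intro a
    by_cases h3 : a ∈ K
    · exact Or.inr (Or.inl (by simp [ct, h3]))
    have hax : a ≠ x := fun h4 => h3 (h4 ▸ hxK)
    have hct : ct N x y K a = (N a).image (ph x y) := by simp [ct, h3]
    have hwit : ∀ z, N z = ∅ → o z = a → y ∈ K → z ≠ y := by
      intro z h4 h5 h6 h7
      subst h7
      exact hax (h5.symm.trans (hown h6 h4))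
    by_cases h4 : x ∈ N a ∧ y ∈ N a
    · obtain ⟨h5, h6⟩ := hdom a h4.1 h4.2
      have h7 : (N a).card = 3 := by
        rcases h.deg a with h7 | h7 | ⟨h7, z, h8, h9, h10⟩
        · exact h7
        · simp [h7] at h4
        · exfalso
          have h11 := hwit z h9 h10 h6
          have h12 : z ≠ x := fun h13 => hx0 (h13 ▸ h9)
          have h13 : ({x, y, z} : Finset V) ⊆ N a := by
            intro b hb
            simp only [mem_insert, mem_singleton] at hb
            rcases hb with rfl | rfl | rfl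
            exacts [h4.1, h4.2, h8]
          have h14 := card_le_card h13
          rw [card_eq_three.2 ⟨x, y, z, hne, h12.symm, h11.symm, rfl⟩] at h14
          omega
      refine Or.inr (Or.inr ⟨?_, y, ?_, by simp [ct, h6], by simp [h6, h5]⟩)
      · rw [hct, img_erase hne h4.2, card_erase_of_mem h4.1, h7]
      · rw [hct, img_erase hne h4.2]
        exact mem_erase.2 ⟨hne.symm, h4.2⟩
    · rcases h.deg a with h7 | h7 | ⟨h7, z, h8, h9, h10⟩
      · exact Or.inl (by rw [hct, card_img h4, h7])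
      · exact Or.inr (Or.inl (hemp a h7))
      · have h12 : z ≠ x := fun h13 => hx0 (h13 ▸ h9)
        refine Or.inr (Or.inr ⟨by rw [hct, card_img h4, h7], z, ?_, hemp z h9, ?_⟩)
        · rw [hct]
          exact mem_image.2 ⟨z, h8, ph_of_ne h12⟩
        · by_cases h6 : y ∈ K
          · simp [h6, Function.update_of_ne (hwit z h9 h10 h6), h10]
          · simp [h6, h10]

omit [Fintype V] [DecidableEq V] in
lemma shrink {U : Set V} (hU : Fr N U) {a z1 z2 : V} (ha : a ∈ U) (h1 : N z1 = ∅) (h2 : N z2 = ∅)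
    (hne : z1 ≠ z2) : ∃ U0 ⊆ U, Fr N U0 ∧ a ∈ U0 ∧ (z1 ∉ U0 ∨ z2 ∉ U0) := by
  by_contra hc
  let B : Set V := {b | b ∈ U ∧ ¬ ∃ U0 ⊆ U, Fr N U0 ∧ b ∈ U0 ∧ (z1 ∉ U0 ∨ z2 ∉ U0)}
  have hs : ∀ b ∈ B, N b ≠ ∅ := by
    rintro b ⟨h3, h4⟩ h5
    refine h4 ⟨{b}, by simpa using h3, ?_, rfl, ?_⟩
    · rintro c rfl
      exact Or.inl h5
    · by_cases h6 : z1 = b
      · exact Or.inr (fun h7 => hne (h6.trans h7.symm))
      · exact Or.inl h6
  have hB : Fr N B := by
    intro b hb
    rcases hU b hb.1 with h3 | ⟨y, h3, h4⟩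
    · exact Or.inl h3
    · refine Or.inr ⟨y, h3, h4, ?_⟩
      rintro ⟨U0, h5, h6, h7, h8⟩
      refine hb.2 ⟨insert b U0, Set.insert_subset hb.1 h5, ?_, Or.inl rfl, ?_⟩
      · rintro c (rfl | h9)
        · exact Or.inr ⟨y, h3, Or.inr h7⟩
        · rcases h6 c h9 with h10 | ⟨d, h10, h11⟩
          · exact Or.inl h10
          · exact Or.inr ⟨d, h10, Or.inr h11⟩
      · rcases h8 with h8 | h8
        · left
          rintro (h9 | h9)
          · exact hs b hb (h9 ▸ h1)
          · exact h8 h9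
        · right
          rintro (h9 | h9)
          · exact hs b hb (h9 ▸ h2)
          · exact h8 h9
  exact hc ⟨B, fun b hb => hb.1, hB, ⟨ha, hc⟩, Or.inl (fun h3 => hs z1 h3 h1)⟩

/-- two common out-neighbours of the roots: move the roots forward -/
lemma sp_common (h : OK N o) (ih : IH N) (huv : u ≠ v) {a b : V} (hab : a ≠ b) (hau : a ∈ N u)
    (hbu : b ∈ N u) (hav : a ∈ N v) (hbv : b ∈ N v) : Sp N u v := by
  let N' : V → Finset V := fun x => if x = u ∨ x = v then ∅ else N x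
  have hemp : ∀ x, N x = ∅ → N' x = ∅ := fun x hx => by simp [N', hx]
  have hu' : N' u = ∅ := by simp [N']
  have hv' : N' v = ∅ := by simp [N']
  have hok : OK N' o := by
    constructor
    · intro x hx
      by_cases h1 : x = u ∨ x = v
      · simp [N', h1] at hx
      · simp only [N', h1, if_false] at hx
        exact h.irr x hx
    · intro x
      by_cases h1 : x = u ∨ x = v
      · exact Or.inr (Or.inl (by simp [N', h1]))
      · have h2 : N' x = N x := by simp only [N', h1, if_false]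
        rw [h2]
        rcases h.deg x with h3 | h3 | ⟨h3, z, h4, h5, h6⟩
        · exact Or.inl h3
        · exact Or.inr (Or.inl h3)
        · exact Or.inr (Or.inr ⟨h3, z, h4, hemp z h5, h6⟩)
  have key : ∀ (s t c : V) (U : Set V), ((s = u ∧ t = v) ∨ (s = v ∧ t = u)) → Fr N' U → c ∈ U →
      c ∈ N s → t ∉ U → Fr N (insert s U) := by
    intro s t c U hst hU hc hcs ht x hx
    by_cases h1 : x = s
    · exact Or.inr ⟨c, h1 ▸ hcs, Or.inr hc⟩
    · have hxU : x ∈ U := hx.resolve_left h1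
      have h2 : x ≠ t := fun h3 => ht (h3 ▸ hxU)
      have h3 : ¬ (x = u ∨ x = v) := by
        rcases hst with ⟨rfl, rfl⟩ | ⟨rfl, rfl⟩ <;> tauto
      have h4 : N' x = N x := by simp only [N', h3, if_false]
      rcases hU x hxU with h5 | ⟨y, h5, h6⟩
      · exact Or.inl (h4 ▸ h5)
      · exact Or.inr ⟨y, h4 ▸ h5, Or.inr h6⟩
  have fin : ∀ (c d : V) (U W : Set V), Disjoint U W → Fr N' U → Fr N' W → c ∈ U → d ∈ W →
      c ∈ N u → d ∈ N v → u ∉ W → v ∉ U → Sp N u v := by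
    intro c d U W h1 h2 h3 h4 h5 h6 h7 h8 h9
    refine ⟨insert u U, insert v W, ?_, key u v c U (Or.inl ⟨rfl, rfl⟩) h2 h4 h6 h9,
      key v u d W (Or.inr ⟨rfl, rfl⟩) h3 h5 h7 h8, Or.inl rfl, Or.inl rfl⟩
    rw [Set.disjoint_left] at h1 ⊢
    rintro x (rfl | hx) (h10 | h10)
    · exact huv h10
    · exact h8 h10
    · exact h9 (h10 ▸ hx)
    · exact h1 hx h10
  obtain ⟨U, W, h1, h2, h3, h4, h5⟩ :=
    ih N' o hok (mu_lt hemp (ne_empty_of_mem hau) hu') a b hab
  obtain ⟨U0, c1, c2, c3, c4⟩ := shrink h2 h4 hu' hv' huv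
  obtain ⟨W0, d1, d2, d3, d4⟩ := shrink h3 h5 hu' hv' huv
  have hd : Disjoint U0 W0 := h1.mono c1 d1
  have hd' := Set.disjoint_left.1 hd
  by_cases e1 : u ∈ W0
  · exact fin b a W0 U0 hd.symm d2 c2 d3 c3 hbu hav (fun e => hd' e e1)
      (d4.resolve_left (not_not.2 e1))
  · by_cases e2 : v ∈ U0
    · exact fin b a W0 U0 hd.symm d2 c2 d3 c3 hbu hav (c4.resolve_right (not_not.2 e2))
        (fun e => hd' e2 e)
    · exact fin a b U0 W0 hd c2 d2 c3 d3 hau hbv e1 e2

/-- one may assume that `u` sends an arc to `v` -/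
lemma add_arc (h : OK N o) (huv : u ≠ v) (hu : (N u).card = 3) :
    ∃ N' : V → Finset V, OK N' o ∧ mu N' = mu N ∧ v ∈ N' u ∧ (N' u).card = 3 ∧
      (∀ x, x ≠ u → N' x = N x) ∧ (Sp N' u v → Sp N u v) := by
  have h1 : 2 ≤ ((N u).erase v).card := by
    have := pred_card_le_card_erase (s := N u) (a := v)
    omega
  obtain ⟨A, h2, h3⟩ := exists_subset_card_eq h1
  have hvA : v ∉ A := fun h4 => (mem_erase.1 (h2 h4)).1 rfl
  have hu0 : N u ≠ ∅ := fun h4 => by simp [h4] at hu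
  have hne : ∀ x, x ≠ u → Function.update N u (insert v A) x = N x :=
    fun x hx => Function.update_of_ne hx _ _
  have hc : (Function.update N u (insert v A) u).card = 3 := by
    rw [Function.update_self, card_insert_of_notMem hvA, h3]
  refine ⟨Function.update N u (insert v A), ⟨?_, ?_⟩, ?_, by simp, hc, hne, ?_⟩
  · intro x hx
    by_cases h4 : x = u
    · subst h4
      rw [Function.update_self] at hx
      rcases mem_insert.1 hx with h5 | h5
      · exact huv h5
      · exact h.irr x (mem_of_mem_erase (h2 h5))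
    · rw [hne x h4] at hx
      exact h.irr x hx
  · intro x
    by_cases h4 : x = u
    · exact Or.inl (h4 ▸ hc)
    · rw [hne x h4]
      rcases h.deg x with h5 | h5 | ⟨h5, z, h6, h7, h8⟩
      · exact Or.inl h5
      · exact Or.inr (Or.inl h5)
      · refine Or.inr (Or.inr ⟨h5, z, h6, ?_, h8⟩)
        rw [hne z (fun h9 => hu0 (h9 ▸ h7))]
        exact h7
  · unfold mu
    congr 1
    ext x
    by_cases h4 : x = u
    · subst h4
      simp [hu0]
    · simp [hne x h4]
  · rintro ⟨U, W, c1, c2, c3, c4, c5⟩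
    have hd := Set.disjoint_left.1 c1
    refine ⟨U, W, c1, ?_, ?_, c4, c5⟩
    · intro x hx
      by_cases h4 : x = u
      · subst h4
        rcases c2 x hx with h5 | ⟨y, h5, h6⟩
        · simp at h5
        · rw [Function.update_self] at h5
          rcases mem_insert.1 h5 with h7 | h7
          · exact absurd c5 (hd (h7 ▸ h6))
          · exact Or.inr ⟨y, mem_of_mem_erase (h2 h7), h6⟩
      · have := c2 x hx
        rwa [hne x h4] at this
    · intro x hx
      have := c3 x hx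
      rwa [hne x (fun h4 => hd c4 (h4 ▸ hx))] at this

end Pool.Agent.Work.MP_97603a_co.Q2
end

-- merged part: Pool.Agent.Work.MP_97603a_co.Q2.Count
section
/-! The counting argument.  `dl x y` is the number of common in-neighbours of `x` and `y`.
If every arc other than `u → v`, `v → u` has a common in-neighbour of its ends (two for a digon),
the excess `ep` is nonnegative and its total is `4 - 2 * (number of vertices of out-degree 2)`. -/

namespace Pool.Agent.Work.MP_97603a_co.Q2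

open Finset

variable {V : Type} [Fintype V] [DecidableEq V]

def Dm (N : V → Finset V) (x y : V) : Finset V := univ.filter (fun w => x ∈ N w ∧ y ∈ N w)

def In (N : V → Finset V) (t : V) : Finset V := univ.filter (fun w => t ∈ N w)

def ep (N : V → Finset V) (u v x y : V) : ℤ :=
  ((Dm N x y).card : ℤ) - (if y ∈ N x then 1 else 0) - (if x ∈ N y then 1 else 0) +
    (if (x = u ∧ y = v) ∨ (x = v ∧ y = u) then 2 else 0)

def gg (N : V → Finset V) (u v t : V) : ℤ := ∑ y ∈ univ.erase t, ep N u v t y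

variable {N : V → Finset V} {o : V → V} {u v : V}

lemma mem_Dm {x y w : V} : w ∈ Dm N x y ↔ x ∈ N w ∧ y ∈ N w := by simp [Dm]

lemma mem_In {t w : V} : w ∈ In N t ↔ t ∈ N w := by simp [In]

lemma Dm_comm (x y : V) : Dm N x y = Dm N y x := by
  ext w
  simp [mem_Dm, and_comm]

lemma ep_comm (x y : V) : ep N u v x y = ep N u v y x := by
  unfold ep
  rw [Dm_comm x y]
  have : ((x = u ∧ y = v) ∨ (x = v ∧ y = u)) ↔ ((y = u ∧ x = v) ∨ (y = v ∧ x = u)) := by tauto
  simp only [this]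
  ring

lemma ep_swap (x y : V) : ep N u v x y = ep N v u x y := by
  unfold ep
  simp only [or_comm]

lemma gg_swap (t : V) : gg N u v t = gg N v u t := by
  unfold gg
  exact sum_congr rfl (fun y _ => ep_swap t y)

lemma sum_ind (hirr : ∀ x, x ∉ N x) (t w : V) (ht : t ∈ N w) :
    ∑ y ∈ univ.erase t, (if y ∈ N w then (1 : ℤ) else 0) = ((N w).card : ℤ) - 1 := by
  have _ := hirr
  rw [sum_boole]
  have h1 : (univ.erase t).filter (fun y => y ∈ N w) = (N w).erase t := by
    ext y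
    simp
  rw [h1, card_erase_of_mem ht]
  have := card_pos.2 ⟨t, ht⟩
  omega

lemma gg_eq (hirr : ∀ x, x ∉ N x) (huv : u ≠ v) (t : V) :
    gg N u v t = ∑ w ∈ In N t, (((N w).card : ℤ) - 2) - (N t).card +
      (if t = u ∨ t = v then 2 else 0) := by
  unfold gg ep
  rw [sum_add_distrib, sum_sub_distrib, sum_sub_distrib]
  have h1 : ∑ y ∈ univ.erase t, ((Dm N t y).card : ℤ) = ∑ w ∈ In N t, (((N w).card : ℤ) - 1) := by
    have h2 : ∀ y, ((Dm N t y).card : ℤ) = ∑ w ∈ In N t, (if y ∈ N w then (1 : ℤ) else 0) := by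
      intro y
      rw [sum_boole]
      congr 2
      ext w
      simp [mem_Dm, mem_In]
    rw [sum_congr rfl (fun y _ => h2 y), sum_comm]
    exact sum_congr rfl (fun w hw => sum_ind hirr t w (mem_In.1 hw))
  have h2 : ∑ y ∈ univ.erase t, (if y ∈ N t then (1 : ℤ) else 0) = (N t).card := by
    rw [sum_boole]
    congr 2
    ext y
    simp only [mem_filter, mem_erase, mem_univ, and_true]
    exact ⟨fun h => h.2, fun h => ⟨fun h3 => hirr t (h3 ▸ h), h⟩⟩
  have h3 : ∑ y ∈ univ.erase t, (if t ∈ N y then (1 : ℤ) else 0) = ∑ _w ∈ In N t, (1 : ℤ) := by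
    rw [sum_boole, sum_const]
    simp only [nsmul_eq_mul, mul_one]
    congr 2
    ext y
    simp only [mem_filter, mem_erase, mem_univ, and_true, mem_In]
    exact ⟨fun h => h.2, fun h => ⟨fun h3 => hirr t (h3 ▸ h), h⟩⟩
  have h4 : ∑ y ∈ univ.erase t, (if (t = u ∧ y = v) ∨ (t = v ∧ y = u) then (2 : ℤ) else 0) =
      (if t = u ∨ t = v then 2 else 0) := by
    by_cases h5 : t = u
    · subst h5
      simp [huv, huv.symm]
    · by_cases h6 : t = v
      · subst h6
        simp [h5, huv]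
      · simp [h5, h6]
  rw [h1, h2, h3, h4]
  have h5 : ∑ w ∈ In N t, (((N w).card : ℤ) - 2) =
      ∑ w ∈ In N t, (((N w).card : ℤ) - 1) - ∑ _w ∈ In N t, (1 : ℤ) := by
    rw [← sum_sub_distrib]
    exact sum_congr rfl (fun w _ => by ring)
  rw [h5]
  ring

lemma gg_total (h : OK N o) (huv : u ≠ v) :
    ∑ t, gg N u v t = 4 - 2 * ((univ.filter (fun x => (N x).card = 2)).card : ℤ) := by
  rw [sum_congr rfl (fun t _ => gg_eq h.irr huv t), sum_add_distrib, sum_sub_distrib]
  have h1 : ∑ t, ∑ w ∈ In N t, (((N w).card : ℤ) - 2) =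
      ∑ w, ((N w).card : ℤ) * (((N w).card : ℤ) - 2) := by
    have h2 : ∀ t, ∑ w ∈ In N t, (((N w).card : ℤ) - 2) =
        ∑ w, (if t ∈ N w then (((N w).card : ℤ) - 2) else 0) := by
      intro t
      unfold In
      rw [sum_filter]
    rw [sum_congr rfl (fun t _ => h2 t), sum_comm]
    refine sum_congr rfl (fun w _ => ?_)
    rw [← sum_filter, sum_const]
    simp
  have h2 : ∑ t : V, (if t = u ∨ t = v then (2 : ℤ) else 0) = 4 := by
    rw [← sum_filter, sum_const]
    have : univ.filter (fun t => t = u ∨ t = v) = {u, v} := by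
      ext t
      simp
    rw [this, card_pair huv]
    norm_num
  have h3 : ∀ w, ((N w).card : ℤ) * (((N w).card : ℤ) - 2) - (N w).card =
      (if (N w).card = 2 then -2 else 0) := by
    intro w
    rcases h.deg w with h4 | h4 | ⟨h4, -⟩ <;> simp [h4]
  rw [h1, h2, ← sum_sub_distrib, sum_congr rfl (fun w _ => h3 w), ← sum_filter, sum_const]
  simp only [nsmul_eq_mul]
  ring

/-- the local conditions satisfied by a minimal counterexample -/
structure Tight (N : V → Finset V) (o : V → V) (u v : V) : Prop where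
  ok : OK N o
  ne : u ≠ v
  uv : v ∈ N u
  vu : u ∈ N v
  cu : (N u).card = 3
  cv : (N v).card = 3
  du : ∀ x ∈ N u, u ∈ N x → x = v
  dv : ∀ x ∈ N v, v ∈ N x → x = u
  d1 : ∀ x y, y ∈ N x → ¬ (x = u ∧ y = v) → ¬ (x = v ∧ y = u) → 1 ≤ (Dm N x y).card
  d2 : ∀ x y, y ∈ N x → (x ∈ N y ∨ (N y = ∅ ∧ o y = x)) → ¬ (x = u ∧ y = v) →
    ¬ (x = v ∧ y = u) → 2 ≤ (Dm N x y).card
  k2 : ∀ a b, a ≠ b → a ∈ N u → b ∈ N u → a ∈ N v → b ∈ N v → False

lemma Tight.symm (h : Tight N o u v) : Tight N o v u :=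
  ⟨h.ok, h.ne.symm, h.vu, h.uv, h.cv, h.cu, h.dv, h.du, fun x y h1 h2 h3 => h.d1 x y h1 h3 h2,
    fun x y h1 h2 h3 h4 => h.d2 x y h1 h2 h4 h3, fun a b h1 h2 h3 h4 h5 => h.k2 a b h1 h4 h5 h2 h3⟩

lemma Tight.ep_nonneg (h : Tight N o u v) (x y : V) : 0 ≤ ep N u v x y := by
  unfold ep
  by_cases h1 : (x = u ∧ y = v) ∨ (x = v ∧ y = u)
  · simp only [h1, if_true]
    split_ifs <;> omega
  · simp only [h1, if_false]
    have h2 : ¬ (x = u ∧ y = v) := fun h3 => h1 (Or.inl h3)
    have h3 : ¬ (x = v ∧ y = u) := fun h3 => h1 (Or.inr h3)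
    by_cases h4 : y ∈ N x <;> by_cases h5 : x ∈ N y
    · have := h.d2 x y h4 (Or.inl h5) h2 h3
      simp only [h4, h5, if_true]
      omega
    · have := h.d1 x y h4 h2 h3
      simp only [h4, h5, if_true, if_false]
      omega
    · have := h.d1 y x h5 (by tauto) (by tauto)
      rw [Dm_comm] at this
      simp only [h4, h5, if_true, if_false]
      omega
    · simp only [h4, h5, if_false]
      omega

lemma Tight.gg_nonneg (h : Tight N o u v) (t : V) : 0 ≤ gg N u v t :=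
  sum_nonneg (fun y _ => h.ep_nonneg t y)

lemma Tight.ep_le (h : Tight N o u v) {x y : V} (hxy : x ≠ y) : ep N u v x y ≤ gg N u v y := by
  rw [ep_comm]
  exact single_le_sum (f := fun z => ep N u v y z) (fun z _ => h.ep_nonneg y z)
    (mem_erase.2 ⟨hxy, mem_univ x⟩)

lemma Tight.sub_le (h : Tight N o u v) (s : Finset V) :
    ∑ t ∈ s, gg N u v t ≤ 4 - 2 * ((univ.filter (fun x => (N x).card = 2)).card : ℤ) := by
  rw [← gg_total h.ok h.ne]
  exact sum_le_sum_of_subset_of_nonneg (subset_univ s) (fun t _ _ => h.gg_nonneg t)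

lemma Tight.ep_uv (h : Tight N o u v) : ep N u v u v = (Dm N u v).card := by
  simp only [ep, h.uv, h.vu, if_true, and_self, true_or]
  ring

lemma Tight.twice (h : Tight N o u v) :
    2 * gg N u v u + gg N u v v - (Dm N u v).card ≤ 4 := by
  have h1 := h.sub_le univ
  have hv : v ∈ univ.erase u := mem_erase.2 ⟨h.ne.symm, mem_univ v⟩
  rw [← add_sum_erase univ _ (mem_univ u), ← add_sum_erase _ _ hv] at h1
  have h2 : gg N u v u = ep N u v u v + ∑ y ∈ (univ.erase u).erase v, ep N u v u y :=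
    (add_sum_erase _ _ hv).symm
  have h3 : ∑ y ∈ (univ.erase u).erase v, ep N u v u y ≤
      ∑ y ∈ (univ.erase u).erase v, gg N u v y :=
    sum_le_sum (fun y hy => h.ep_le (mem_erase.1 (mem_of_mem_erase hy)).1.symm)
  rw [h.ep_uv] at h2
  omega

/-- an out-neighbour of `u` that is not an out-neighbour of `v`, and a vertex dominating that arc -/
lemma Tight.ex_dom (h : Tight N o u v) :
    ∃ a x, a ∈ N u ∧ a ≠ v ∧ a ∉ N v ∧ u ∈ N x ∧ a ∈ N x ∧ x ≠ v := by
  have h1 : 1 < ((N u).erase v).card := by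
    rw [card_erase_of_mem h.uv, h.cu]
    norm_num
  obtain ⟨a, ha, b, hb, hab⟩ := one_lt_card.1 h1
  have key : ∀ a ∈ (N u).erase v, a ∉ N v →
      ∃ a x, a ∈ N u ∧ a ≠ v ∧ a ∉ N v ∧ u ∈ N x ∧ a ∈ N x ∧ x ≠ v := by
    intro a ha h2
    obtain ⟨h3, h4⟩ := mem_erase.1 ha
    obtain ⟨x, hx⟩ := card_pos.1 (h.d1 u a h4 (fun h5 => h3 h5.2) (fun h5 => h.ne h5.1))
    obtain ⟨h5, h6⟩ := mem_Dm.1 hx
    exact ⟨a, x, h4, h3, h2, h5, h6, fun h7 => h2 (h7 ▸ h6)⟩
  by_cases h2 : a ∈ N v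
  · exact key b hb (fun h3 => h.k2 a b hab (mem_of_mem_erase ha) (mem_of_mem_erase hb) h2 h3)
  · exact key a ha h2

lemma Tight.two_le (h : Tight N o u v) {t w : V} (hw : t ∈ N w) : 2 ≤ (N w).card := by
  rcases h.ok.deg w with h1 | h1 | ⟨h1, -⟩
  · omega
  · simp [h1] at hw
  · omega

/-- no vertex has out-degree 2 -/
lemma Tight.no_def (h : Tight N o u v) (p : V) : (N p).card ≠ 2 := by
  intro hp
  obtain ⟨z, hz, hz0, hzo⟩ : ∃ z ∈ N p, N z = ∅ ∧ o z = p := by
    rcases h.ok.deg p with h1 | h1 | ⟨-, h1⟩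
    · omega
    · simp [h1] at hp
    · exact h1
  have hpu : p ≠ u := fun h1 => by have := h.cu; rw [← h1] at this; omega
  have hpv : p ≠ v := fun h1 => by have := h.cv; rw [← h1] at this; omega
  have hzu : z ≠ u := fun h1 => by have := h.cu; rw [← h1, hz0] at this; simp at this
  have hzv : z ≠ v := fun h1 => by have := h.cv; rw [← h1, hz0] at this; simp at this
  have hpz : p ≠ z := fun h1 => h.ok.irr p (h1 ▸ hz)
  have h1 : 1 ≤ ep N u v p z := by
    have := h.d2 p z hz (Or.inr ⟨hz0, hzo⟩) (fun h2 => hpu h2.1) (fun h2 => hpv h2.1)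
    simp only [ep, hz, hz0, hpu, hpv, if_true, false_and, or_self, if_false, notMem_empty]
    omega
  have h2 := h.ep_le hpz
  have h3 := h.ep_le hpz.symm
  rw [ep_comm] at h3
  have h4 := h.sub_le {p, z, u, v}
  rw [sum_insert (by simp [hpz, hpu, hpv]), sum_insert (by simp [hzu, hzv]),
    sum_pair h.ne] at h4
  have h5 : p ∈ univ.filter (fun x => (N x).card = 2) := by simpa using hp
  have h6 := card_pos.2 ⟨p, h5⟩
  have h7 := h.gg_nonneg u
  have h8 := h.gg_nonneg v
  have h9 : (univ.filter (fun x => (N x).card = 2)).card ≤ 1 := by omega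
  have key : ∀ s t, Tight N o s t → gg N s t s ≤ 0 → s ∈ N p := by
    intro s t hst hg
    obtain ⟨a, x, -, -, -, c1, -, c2⟩ := hst.ex_dom
    have c3 := gg_eq hst.ok.irr hst.ne s
    have c4 : ∑ w ∈ {t, x}, (((N w).card : ℤ) - 2) ≤ ∑ w ∈ In N s, (((N w).card : ℤ) - 2) := by
      apply sum_le_sum_of_subset_of_nonneg
      · intro w hw
        simp only [mem_insert, mem_singleton] at hw
        rcases hw with rfl | rfl
        exacts [mem_In.2 hst.vu, mem_In.2 c1]
      · intro w hw _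
        have := hst.two_le (mem_In.1 hw)
        omega
    rw [sum_pair c2.symm, hst.cv] at c4
    rw [hst.cu] at c3
    simp only [true_or, if_true] at c3
    have c5 := hst.two_le c1
    have c6 : x ∈ univ.filter (fun x => (N x).card = 2) := by
      simp only [mem_filter, mem_univ, true_and]
      omega
    exact (card_le_one.1 h9 x c6 p h5) ▸ c1
  have h10 := key u v h (by omega)
  have h11 := key v u h.symm (by rw [← gg_swap]; omega)
  have h12 : ({z, u, v} : Finset V) ⊆ N p := by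
    intro b hb
    simp only [mem_insert, mem_singleton] at hb
    rcases hb with rfl | rfl | rfl
    exacts [hz, h10, h11]
  have h13 := card_le_card h12
  rw [card_eq_three.2 ⟨z, u, v, hzu, hzv, h.ne, rfl⟩] at h13
  omega

lemma Tight.three (h : Tight N o u v) {t w : V} (hw : t ∈ N w) : (N w).card = 3 := by
  rcases h.ok.deg w with h1 | h1 | ⟨h1, -⟩
  · exact h1
  · simp [h1] at hw
  · exact absurd h1 (h.no_def w)

lemma Tight.gg_in (h : Tight N o u v) (t : V) :
    gg N u v t = ((In N t).card : ℤ) - (N t).card + (if t = u ∨ t = v then 2 else 0) := by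
  rw [gg_eq h.ok.irr h.ne]
  have : ∑ w ∈ In N t, (((N w).card : ℤ) - 2) = ∑ _w ∈ In N t, (1 : ℤ) :=
    sum_congr rfl (fun w hw => by rw [h.three (mem_In.1 hw)]; norm_num)
  rw [this]
  simp

lemma Tight.gg_u (h : Tight N o u v) : gg N u v u = (((In N u).erase v).card : ℤ) := by
  rw [h.gg_in, h.cu, card_erase_of_mem (mem_In.2 h.vu)]
  have := card_pos.2 ⟨v, mem_In.2 h.vu⟩
  simp only [true_or, if_true]
  omega

lemma Tight.gg_u_pos (h : Tight N o u v) : 1 ≤ gg N u v u := by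
  obtain ⟨a, x, -, -, -, c1, -, c2⟩ := h.ex_dom
  rw [h.gg_u]
  have := card_pos.2 ⟨x, mem_erase.2 ⟨c2, mem_In.2 c1⟩⟩
  omega

end Pool.Agent.Work.MP_97603a_co.Q2
end

-- merged part: Pool.Agent.Work.MP_97603a_co.Q2.Main
section
/-! End of the counting argument, the induction, and the statement for digraphs. -/

namespace Pool.Agent.Work.MP_97603a_co.Q2

open Finset

variable {V : Type} [Fintype V] [DecidableEq V]
variable {N : V → Finset V} {o : V → V} {u v : V}

/-- no common in-neighbour of the roots: each root has exactly one further in-neighbour -/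
lemma Tight.caseA_in (h : Tight N o u v) (h0 : (Dm N u v).card = 0) :
    ∃ x, x ≠ v ∧ u ∈ N x ∧ (∀ w, u ∈ N w → w = v ∨ w = x) ∧ x ∈ N v ∧ x ∉ N u := by
  have h1 := h.twice
  have h2 := h.gg_u_pos
  have h3 := h.symm.gg_u_pos
  rw [← gg_swap] at h3
  have h4 := h.gg_u
  have h5 : ((In N u).erase v).card = 1 := by omega
  obtain ⟨x, hx⟩ := card_eq_one.1 h5
  have h6 : x ∈ (In N u).erase v := by simp [hx]
  obtain ⟨h7, h8⟩ := mem_erase.1 h6
  have h9 : ∀ w, u ∈ N w → w = v ∨ w = x := by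
    intro w hw
    by_cases h10 : w = v
    · exact Or.inl h10
    · have : w ∈ (In N u).erase v := mem_erase.2 ⟨h10, mem_In.2 hw⟩
      rw [hx] at this
      exact Or.inr (mem_singleton.1 this)
  have h10 := mem_In.1 h8
  refine ⟨x, h7, h10, h9, ?_, fun h11 => h7 (h.du x h11 h10)⟩
  obtain ⟨w, hw⟩ := card_pos.1 (h.d1 x u h10 (fun h11 => h.ne h11.2) (fun h11 => h7 h11.1))
  obtain ⟨h11, h12⟩ := mem_Dm.1 hw
  rcases h9 w h12 with h13 | h13
  · exact h13 ▸ h11
  · exact absurd (h13 ▸ h11) (h.ok.irr x)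

lemma Tight.caseA_arc (h : Tight N o u v) {x x' : V} (h1 : ∀ w, u ∈ N w → w = v ∨ w = x)
    (h2 : x' ∈ N u) (h3 : x' ∉ N v) (h4 : v ∈ N x') : x' ∈ N x := by
  have h5 : x' ≠ v := fun h6 => h.ok.irr v (h6 ▸ h4)
  obtain ⟨w, hw⟩ := card_pos.1 (h.d1 u x' h2 (fun h6 => h5 h6.2) (fun h6 => h.ne h6.1))
  obtain ⟨h6, h7⟩ := mem_Dm.1 hw
  rcases h1 w h6 with h8 | h8
  · exact absurd (h8 ▸ h7) h3
  · exact h8 ▸ h7

lemma Tight.caseA_pos (h : Tight N o u v) {x x' : V} (h1 : x' ∈ N x) (h2 : x ∈ N x')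
    (h3 : x' ∈ N u) (h4 : x ∉ N u) (h5 : x ≠ u) (h6 : x ≠ v) :
    1 ≤ gg N u v x' + (if x' = u ∨ x' = v then -2 else 0) := by
  have h7 := h.d2 x x' h1 (Or.inl h2) (fun h8 => h5 h8.1) (fun h8 => h6 h8.1)
  have h8 : insert u (insert x (Dm N x x')) ⊆ In N x' := by
    intro w hw
    simp only [mem_insert] at hw
    rcases hw with rfl | rfl | hw
    exacts [mem_In.2 h3, mem_In.2 h1, mem_In.2 (mem_Dm.1 hw).2]
  have h9 := card_le_card h8
  rw [card_insert_of_notMem (by
      simp only [mem_insert, mem_Dm, not_or]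
      exact ⟨h5.symm, fun h10 => h4 h10.1⟩),
    card_insert_of_notMem (fun h10 => h.ok.irr x (mem_Dm.1 h10).1)] at h9
  rw [h.gg_in, h.three h2]
  split_ifs <;> omega

lemma Tight.caseA (h : Tight N o u v) (h0 : (Dm N u v).card = 0) : False := by
  obtain ⟨x, a1, a2, a3, a4, a5⟩ := h.caseA_in h0
  obtain ⟨x', b1, b2, b3, b4, b5⟩ := h.symm.caseA_in (by rwa [Dm_comm])
  have a6 : x ≠ u := fun h1 => h.ok.irr u (h1 ▸ a2)
  have b6 : x' ≠ v := fun h1 => h.ok.irr v (h1 ▸ b2)
  have c1 : x' ∈ N x := h.caseA_arc a3 b4 b5 b2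
  have c2 : x ∈ N x' := h.symm.caseA_arc b3 a4 a5 a2
  have c3 : x ≠ x' := fun h1 => h.ok.irr x (h1 ▸ c1)
  have c4 := h.caseA_pos c1 c2 b4 a5 a6 a1
  have c5 := h.symm.caseA_pos c2 c1 a4 b5 b6 b1
  rw [← gg_swap] at c5
  simp only [b1, b6, a1, a6, or_self, if_false, add_zero] at c4 c5
  have c6 := h.gg_u_pos
  have c7 := h.symm.gg_u_pos
  rw [← gg_swap] at c7
  have c8 : ∃ y ∈ univ.erase u, 0 < ep N u v u y := by
    by_contra hc
    push Not at hc
    have : gg N u v u ≤ 0 := sum_nonpos hc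
    omega
  obtain ⟨y, hy, c9⟩ := c8
  have hyu : y ≠ u := (mem_erase.1 hy).1
  have d1 : y ≠ v := by
    rintro rfl
    rw [h.ep_uv] at c9
    omega
  have d2 : y ≠ x := by
    rintro rfl
    have e1 : Dm N u y ⊆ {v} := by
      intro w hw
      obtain ⟨e2, e3⟩ := mem_Dm.1 hw
      rcases a3 w e2 with e4 | e4
      · simp [e4]
      · exact absurd (e4 ▸ e3) (h.ok.irr y)
    have e2 := card_le_card e1
    simp only [card_singleton] at e2
    simp only [ep, a2, a5, a1, h.ne, if_true, if_false, and_false, false_and, or_self] at c9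
    omega
  have d3 : y ≠ x' := by
    rintro rfl
    have e1 : Dm N u y ⊆ {x} := by
      intro w hw
      obtain ⟨e2, e3⟩ := mem_Dm.1 hw
      rcases a3 w e2 with e4 | e4
      · exact absurd (e4 ▸ e3) b5
      · simp [e4]
    have e2 := card_le_card e1
    simp only [card_singleton] at e2
    simp only [ep, b4, b6, h.ne, if_true, if_false, and_false, false_and, or_self] at c9
    split_ifs at c9 <;> omega
  have d4 := h.ep_le hyu.symm
  have d5 := h.sub_le {y, x, x', u, v}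
  rw [sum_insert (by simp [hyu, d1, d2, d3]), sum_insert (by simp [c3, a1, a6]),
    sum_insert (by simp [b1, b6]), sum_pair h.ne] at d5
  omega

lemma Tight.caseB_two (h : Tight N o u v) {w : V} (h1 : u ∈ N w) (h2 : v ∈ N w) :
    2 ≤ gg N u v u := by
  have h3 : w ≠ v := fun h4 => h.ok.irr v (h4 ▸ h2)
  have h4 : w ≠ u := fun h4 => h.ok.irr u (h4 ▸ h1)
  obtain ⟨w', hw⟩ := card_pos.1 (h.d1 w u h1 (fun h5 => h4 h5.1) (fun h5 => h3 h5.1))
  obtain ⟨h5, h6⟩ := mem_Dm.1 hw
  have h7 : w' ≠ v := fun h8 => h4 (h.dv w (h8 ▸ h5) h2)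
  have h8 : w ≠ w' := fun h9 => h.ok.irr w (h9 ▸ h5)
  have h9 : ({w, w'} : Finset V) ⊆ (In N u).erase v := by
    intro b hb
    simp only [mem_insert, mem_singleton] at hb
    rcases hb with rfl | rfl
    exacts [mem_erase.2 ⟨h3, mem_In.2 h1⟩, mem_erase.2 ⟨h7, mem_In.2 h6⟩]
  have h10 := card_le_card h9
  rw [card_pair h8] at h10
  rw [h.gg_u]
  omega

lemma Tight.caseB (h : Tight N o u v) (h0 : 0 < (Dm N u v).card) : False := by
  obtain ⟨w, hw⟩ := card_pos.1 h0
  obtain ⟨h1, h2⟩ := mem_Dm.1 hw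
  have h3 := h.caseB_two h1 h2
  have h4 := h.symm.caseB_two h2 h1
  rw [← gg_swap] at h4
  have h5 := h.sub_le {u, v}
  rw [sum_pair h.ne] at h5
  have h6 := h.twice
  have h7 := h.gg_u
  have h8 : Dm N u v ⊆ (In N u).erase v := by
    intro b hb
    obtain ⟨h9, h10⟩ := mem_Dm.1 hb
    exact mem_erase.2 ⟨fun h11 => h.ok.irr v (h11 ▸ h10), mem_In.2 h9⟩
  have h9 : Dm N u v = (In N u).erase v := eq_of_subset_of_card_le h8 (by omega)
  have h10 : ((In N u).erase v).card = 2 := by omega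
  obtain ⟨a, x, c1, c2, c3, c4, c5, c6⟩ := h.ex_dom
  have c7 : x ∈ (In N u).erase v := mem_erase.2 ⟨c6, mem_In.2 c4⟩
  obtain ⟨x2, d1, d2⟩ := ex_out1 ((In N u).erase v) x (by omega)
  have d3 := mem_Dm.1 (h9 ▸ d1 : x2 ∈ Dm N u v)
  have d4 := mem_Dm.1 (h9 ▸ c7 : x ∈ Dm N u v)
  have d5 : x2 ≠ v := (mem_erase.1 d1).1
  have d6 : x2 ≠ u := fun e => h.ok.irr u (e ▸ d3.1)
  obtain ⟨t, ht⟩ := card_pos.1 (h.d1 x2 u d3.1 (fun e => d6 e.1) (fun e => d5 e.1))
  obtain ⟨e1, e2⟩ := mem_Dm.1 ht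
  have e3 : t ≠ v := fun e => d6 (h.dv x2 (e ▸ e1) d3.2)
  have e4 : t ≠ x2 := fun e => h.ok.irr x2 (e ▸ e1)
  have e5 : t = x := by
    by_contra e6
    have e7 : ({t, x, x2} : Finset V) ⊆ (In N u).erase v := by
      intro b hb
      simp only [mem_insert, mem_singleton] at hb
      rcases hb with rfl | rfl | rfl
      exacts [mem_erase.2 ⟨e3, mem_In.2 e2⟩, c7, d1]
    have e8 := card_le_card e7
    rw [card_eq_three.2 ⟨t, x, x2, e6, e4, d2.symm, rfl⟩] at e8
    omega
  subst e5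
  have f1 : a ≠ u := fun e => h.ok.irr u (e ▸ c1)
  have f2 : x2 ≠ a := fun e => c2 (h.du a c1 (e ▸ d3.1))
  have f3 : ({x2, a, u, v} : Finset V) ⊆ N t := by
    intro b hb
    simp only [mem_insert, mem_singleton] at hb
    rcases hb with rfl | rfl | rfl | rfl
    exacts [e1, c5, c4, d4.2]
  have f4 := card_le_card f3
  rw [card_insert_of_notMem (by simp [f2, d5, d6]),
    card_eq_three.2 ⟨a, u, v, f1, c2, h.ne, rfl⟩, h.three c4] at f4
  omega

theorem Tight.false (h : Tight N o u v) : False := by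
  by_cases h0 : (Dm N u v).card = 0
  · exact h.caseA h0
  · exact h.caseB (Nat.pos_of_ne_zero h0)

lemma core (h : OK N o) (ih : IH N) (huv : u ≠ v) (h1 : v ∈ N u) (h2 : u ∈ N v)
    (h3 : (N u).card = 3) (h4 : (N v).card = 3) : Sp N u v := by
  by_contra hns
  have d2 : ∀ x y, y ∈ N x → (x ∈ N y ∨ (N y = ∅ ∧ o y = x)) → ¬ (x = u ∧ y = v) →
      ¬ (x = v ∧ y = u) → 2 ≤ (Dm N x y).card := by
    intro x y c1 c2 c3 c4
    by_contra hc
    have c5 : ∃ w, ∀ a ∈ Dm N x y, a = w := by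
      rcases (Dm N x y).eq_empty_or_nonempty with c6 | ⟨w, c6⟩
      · exact ⟨x, by simp [c6]⟩
      · exact ⟨w, fun a ha => card_le_one.1 (by omega) a ha w c6⟩
    obtain ⟨w, hw⟩ := c5
    refine hns (sp_ct (K := {x, y}) (w := w) h ih huv c1 c3 c4 (by simp) ?_ (by simp)
      (fun a e1 e2 => ⟨hw a (mem_Dm.2 ⟨e1, e2⟩), by simp⟩) ?_)
    · intro a ha
      simp only [mem_insert, mem_singleton] at ha
      rcases ha with e | e
      · exact Or.inl e
      · refine Or.inr ⟨e, ?_⟩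
        rcases c2 with c2 | c2
        exacts [Or.inr c2, Or.inl c2.1]
    · intro _ e
      rcases c2 with c2 | c2
      · simp [e] at c2
      · exact c2.2
  refine Tight.false (o := o) ⟨h, huv, h1, h2, h3, h4, ?_, ?_, ?_, d2, ?_⟩
  · intro x c1 c2
    by_contra c3
    exact hns (sp_pair h huv c1 c3 (Or.inl c2))
  · intro x c1 c2
    by_contra c3
    exact hns (sp_pair h huv.symm c1 c3 (Or.inl c2)).symm
  · intro x y c1 c3 c4
    by_cases c2 : x ∈ N y
    · exact le_trans (by norm_num) (d2 x y c1 (Or.inl c2) c3 c4)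
    · by_contra hc
      have c5 : Dm N x y = ∅ := card_eq_zero.1 (by omega)
      have c6 : y ≠ x := fun e => h.irr x (e ▸ c1)
      refine hns (sp_ct (K := {x}) (w := x) h ih huv c1 c3 c4 (by simp)
        (fun a ha => Or.inl (mem_singleton.1 ha)) (fun e => absurd e c2) ?_
        (fun e => absurd (mem_singleton.1 e) c6))
      intro a e1 e2
      have := mem_Dm.2 ⟨e1, e2⟩
      simp [c5] at this
  · intro a b c1 c2 c3 c4 c5
    exact hns (sp_common h ih huv c1 c2 c3 c4 c5)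

omit [Fintype V] in
lemma root_three (h : OK N o) (huv : u ≠ v) (hns : ¬ Sp N u v) : (N u).card = 3 := by
  rcases h.deg u with h1 | h1 | ⟨-, z, h1, h2, h3⟩
  · exact h1
  · exact absurd (sp_sink h huv h1) hns
  · by_cases h4 : z = v
    · exact absurd (sp_sink h huv.symm (h4 ▸ h2)).symm hns
    · exact absurd (sp_pair h huv h1 h4 (Or.inr ⟨h2, h3⟩)) hns

theorem all_sp (n : ℕ) : ∀ (N : V → Finset V) (o : V → V), OK N o → mu N < n →
    ∀ u v, u ≠ v → Sp N u v := by
  induction n with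
  | zero => intro N o _ h; omega
  | succ n ih =>
    intro N o h hn u v huv
    by_contra hns
    have h1 := root_three h huv hns
    have h2 := root_three h huv.symm (fun e => hns e.symm)
    obtain ⟨N1, a1, a2, a3, a4, a5, a6⟩ := add_arc h huv h1
    obtain ⟨N2, b1, b2, b3, b4, b5, b6⟩ := add_arc a1 huv.symm (by rw [a5 v huv.symm, h2])
    refine hns (a6 (b6 (core b1 ?_ huv ?_ b3 ?_ b4).symm).symm)
    · intro N' o' c1 c2
      exact ih N' o' c1 (by omega)
    · rw [b5 u huv]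
      exact a3
    · rw [b5 u huv]
      exact a4

theorem separable_three (V : Type) [Fintype V] (G : Digraph V) (hl : ∀ x, ¬ G.Adj x x)
    (hd : ∀ x, 3 ≤ {y | G.Adj x y}.ncard) (S : Finset V) (hS : 2 ≤ S.card) :
    Separable G S := by
  classical
  obtain ⟨u, hu, v, hv, huv⟩ := one_lt_card.1 hS
  have hN : ∀ x, ∃ A : Finset V, A.card = 3 ∧ ∀ y ∈ A, G.Adj x y := by
    intro x
    have h1 : 3 ≤ ((Set.toFinite {y | G.Adj x y}).toFinset).card := by
      rw [← Set.ncard_eq_toFinset_card]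
      exact hd x
    obtain ⟨A, h2, h3⟩ := exists_subset_card_eq h1
    exact ⟨A, h3, fun y hy => by simpa using h2 hy⟩
  choose N hc hN using hN
  have hne : ∀ x, N x ≠ ∅ := fun x h => by have := hc x; simp [h] at this
  obtain ⟨U0, U1, h1, h2, h3, h4, h5⟩ := all_sp _ N id
    ⟨fun x hx => hl x (hN x x hx), fun x => Or.inl (hc x)⟩ (Nat.lt_succ_self _) u v huv
  let W : Set V := {z | ∃ X : Set V, (∀ x ∈ X, ∃ y ∈ X, G.Adj x y) ∧ Disjoint U0 X ∧ z ∈ X}
  have hfr : ∀ U, Fr N U → ∀ x ∈ U, ∃ y ∈ U, G.Adj x y := by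
    intro U hU x hx
    obtain ⟨y, c1, c2⟩ := (hU x hx).resolve_left (hne x)
    exact ⟨y, c2, hN x y c1⟩
  have hW : ∀ x ∈ W, ∃ y ∈ W, G.Adj x y := by
    rintro x ⟨X, c1, c2, c3⟩
    obtain ⟨y, c4, c5⟩ := c1 x c3
    exact ⟨y, ⟨X, c1, c2, c4⟩, c5⟩
  have hU : ∀ z ∈ U0, z ∉ W := by
    rintro z hz ⟨X, -, c2, c3⟩
    exact Set.disjoint_left.1 c2 hz c3
  refine ⟨Wᶜ, W, ⟨⟨u, hU u h4⟩, ⟨v, U1, hfr U1 h3, h1, h5⟩, disjoint_compl_left, by simp, ?_, hW⟩,
    ⟨u, hu, hU u h4⟩, ⟨v, hv, U1, hfr U1 h3, h1, h5⟩⟩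
  intro x hx
  by_cases hx0 : x ∈ U0
  · obtain ⟨y, c1, c2⟩ := hfr U0 h2 x hx0
    exact ⟨y, hU y c1, c2⟩
  · obtain ⟨y, c0⟩ := nonempty_iff_ne_empty.2 (hne x)
    have c1 := hN x y c0
    refine ⟨y, fun c2 => hx ⟨insert x W, ?_, ?_, Or.inl rfl⟩, c1⟩
    · rintro z (rfl | hz)
      · exact ⟨y, Or.inr c2, c1⟩
      · obtain ⟨w, c3, c4⟩ := hW z hz
        exact ⟨w, Or.inr c3, c4⟩
    · rw [Set.disjoint_left]
      rintro z hz (rfl | c3)
      · exact hx0 hz
      · exact hU z hz c3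

end Pool.Agent.Work.MP_97603a_co.Q2
end
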